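import Pool.Agent.Lib.MP_ca7d12_nt.H.FinalC2

/-! # Products of three linear forms: bounds for `m(F) [𝓞_K M : M]` from units modulo `n`

Let `K` be any cubic number field with three real embeddings `σ 0, σ 1, σ 2`. A lattice
`M = ℤ α₀ + ℤ α₁ + ℤ α₂` of `K` gives the form `F(x) = ∏ i, ∑ j, σ i (α j) * x j`. Let `L` be a subgroup of
`𝓞_K` which contains `1` and `n 𝓞_K` and all of whose elements prime to `n` are congruent modulo `n` to
integer multiples of units. Then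
* `m(F) [𝓞_K M : M] ≤ C ^ (1 + ω(n)) [𝓞_K : L]` for all lattices `M` with `n 𝓞_K M ⊆ M`, and
  `m(F) n ^ 2 ≤ C ^ (1 + ω(n)) [𝓞_K : L]` for all invertible modules `M` over `ℤ + n 𝓞_K`, with a constant `C`
  which depends only on `K`;
* so for `δ, ε > 0` only finitely many values `m(F) ≥ ε` occur for all the `n`, `L`, `M` as above with
  `[𝓞_K M : M] ≥ [𝓞_K : L] n ^ δ`; here `n` is not restricted to a fixed set of primes.
In the other direction, for each `n` some invertible module `M` over `ℤ + n 𝓞_K` has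
`m(F) [E : E_n] C ^ (1 + ω(n)) ≥ 1`, where `E` and `E_n` are the unit groups of `𝓞_K` and `ℤ + n 𝓞_K`.
Such subgroups `L` exist
* with `[𝓞_K : L] f ≤ n ^ 2`, if `f ^ 2 ∣ n` and some unit of `ℤ + (n / f) 𝓞_K` is outside
  `ℤ + (n / f) p 𝓞_K` for all primes `p ∣ f`;
* with `[𝓞_K : L] ≤ s ^ 2`, if `s ∣ n` is divisible by all the primes `p ∣ n` (and by `4` for even `n`) and
  every `1 + s z` is an integer multiple of a unit modulo `s p` for these `p`; in a cyclic cubic field with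
  all `p ≡ 2 (mod 3)` this holds as soon as some unit of `ℤ + s 𝓞_K` is outside `ℤ + s p 𝓞_K` for all `p`. -/

set_option autoImplicit false

namespace Pool.Agent.Results.MP_ca7d12_nt.CoveredSubgroups

open NumberField Pool.Agent.MP_ca7d12_nt

theorem result (K : Type) [Field K] [NumberField K] (hK : Module.finrank ℚ K = 3)
    (σ : Fin 3 → K →+* ℝ) (hσ : Function.Injective σ) :
    (∃ C : ℝ, ∀ (n : ℕ) (L : AddSubgroup (𝓞 K)), n ≠ 0 → UnitsCover K n L →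
      ∀ α : Fin 3 → K, LinearIndependent ℚ α →
      (StableUnder K α n → markovMin (fun i j => σ i (α j)) * (latticeIndex K α : ℝ) ≤
        C ^ (1 + n.primeFactors.card) * (L.index : ℝ)) ∧
      (CyclicModulo K α n → markovMin (fun i j => σ i (α j)) * (n : ℝ) ^ 2 ≤
        C ^ (1 + n.primeFactors.card) * (L.index : ℝ))) ∧
    (∀ δ ε : ℝ, 0 < δ → 0 < ε →
      {m : ℝ | ∃ (n : ℕ) (L : AddSubgroup (𝓞 K)) (α : Fin 3 → K), n ≠ 0 ∧ UnitsCover K n L ∧
        LinearIndependent ℚ α ∧ StableUnder K α n ∧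
        (L.index : ℝ) * (n : ℝ) ^ δ ≤ (latticeIndex K α : ℝ) ∧
        m = markovMin (fun i j => σ i (α j)) ∧ ε ≤ m}.Finite) ∧
    (∀ n f : ℕ, n ≠ 0 → f ^ 2 ∣ n → HasUnit K (n / f) f →
      ∃ L : AddSubgroup (𝓞 K), L.index * f ≤ n ^ 2 ∧ UnitsCover K n L) ∧
    (∀ s n : ℕ, n ≠ 0 → s ∣ n → (2 ∣ n → 4 ∣ s) → UnitsFill K s n →
      ∃ L : AddSubgroup (𝓞 K), L.index ≤ s ^ 2 ∧ UnitsCover K n L) ∧
    (IsGalois ℚ K → ∀ s n : ℕ, s ≠ 0 → (∀ p : ℕ, p.Prime → p ∣ n → p % 3 = 2 ∧ p ∣ s) →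
      HasUnit K s n → UnitsFill K s n) ∧
    (∀ p : ℕ, p.Prime → ∃ w : ℕ, ∀ j b : ℕ, HasUnit K (p ^ (w + j)) (p ^ b)) ∧
    (∀ p w : ℕ, p.Prime → 3 ≤ p → 1 ≤ w → HasUnit K (p ^ w) p →
      ∀ j b : ℕ, HasUnit K (p ^ (w + j)) (p ^ b)) ∧
    (∃ C : ℝ, ∀ n : ℕ, n ≠ 0 → ∃ α : Fin 3 → K, LinearIndependent ℚ α ∧ CyclicModulo K α n ∧
      1 ≤ C ^ (1 + n.primeFactors.card) * ((unitsMod K n).index : ℝ) *
        markovMin (fun i j => σ i (α j))) :=
  final_C2 K hK σ hσ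

end Pool.Agent.Results.MP_ca7d12_nt.CoveredSubgroups
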