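import Pool.Agent.Lib.MP_ca7d12_nt.V.FinalV

/-! # Products of three linear forms: all lattices of a fixed cyclic cubic field with conductor
supported on a fixed finite set of primes

Let `K` be a cyclic cubic number field with real embeddings `σ 0, σ 1, σ 2`. A lattice
`M = ℤ α₀ + ℤ α₁ + ℤ α₂` of `K` gives the form `F(x) = ∏ i, ∑ j, σ i (α j) * x j`, a product of three
real linear forms. Let `S` be any finite set of primes. For the lattices `M` of `K` whose ring of
multipliers contains `n 𝓞_K` for some `n` composed of primes of `S`, the products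
`m(F) [𝓞_K M : M]` take only finitely many values, all positive. In particular only finitely many
values `m(F) ≥ ε` occur for each `ε > 0`. -/

set_option autoImplicit false

namespace Pool.Agent.Results.MP_ca7d12_nt.CyclicFieldAllLattices

open NumberField Pool.Agent.MP_ca7d12_nt

theorem result (K : Type) [Field K] [NumberField K] (hK : Module.finrank ℚ K = 3)
    (hG : IsGalois ℚ K) (σ : Fin 3 → K →+* ℝ) (hσ : Function.Injective σ) (S : Finset ℕ)
    (hS : ∀ p ∈ S, p.Prime) :
    (∃ V : Finset ℝ, (∀ v ∈ V, 0 < v) ∧ ∀ (α : Fin 3 → K) (n : ℕ), LinearIndependent ℚ α →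
      IsSNumber S n → StableUnder K α n → 0 < latticeIndex K α ∧
        markovMin (fun i j => σ i (α j)) * (latticeIndex K α : ℝ) ∈ V) ∧
    ∀ ε : ℝ, 0 < ε → {m : ℝ | ∃ α : Fin 3 → K, LinearIndependent ℚ α ∧
        (∃ n : ℕ, IsSNumber S n ∧ StableUnder K α n) ∧
        m = markovMin (fun i j => σ i (α j)) ∧ ε ≤ m}.Finite :=
  final_cyclic_V K hK hG σ hσ S hS

end Pool.Agent.Results.MP_ca7d12_nt.CyclicFieldAllLattices
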