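import Pool.Agent.Lib.MP_ca7d12_nt.H.FinalH

/-! # Products of three linear forms: the rate `m(F) ≍ 1 / [𝓞_K M : M]` and Leopoldt's conjecture

Let `K` be any cubic number field with three real embeddings `σ 0, σ 1, σ 2`. A lattice
`M = ℤ α₀ + ℤ α₁ + ℤ α₂` of `K` gives the form `F(x) = ∏ i, ∑ j, σ i (α j) * x j`. Let `S` be a finite
set of primes. The products `m(F) [𝓞_K M : M]` take only finitely many values for the lattices `M` whose
ring of multipliers contains `n 𝓞_K` for some `n` composed of primes of `S`, if and only if they are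
bounded for those of them which are invertible over `ℤ + n 𝓞_K`, if and only if Leopoldt's conjecture
holds for `K` and the primes of `S`; and then only finitely many values `m(F) ≥ ε` occur.

At one prime `p` this is quantitative and uniform in `p`. The level `p ^ w` is filled by the units if
every `1 + p ^ w z`, `z ∈ 𝓞_K`, is an integer multiple of a unit modulo `p ^ (w + 1)` (`UnitsFill`), and it
is reached if some unit is congruent to an integer modulo `p ^ w` but not modulo `p ^ (w + 1)` (`HasUnit`).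
Leopoldt's conjecture holds for `K` and `p` if and only if some level `p ^ w`, `w ≥ 2`, is filled. If the
level `p ^ v > 2` is reached and the level `p ^ w` is filled, `v ≤ w`, then
`m(F) [𝓞_K M : M] ≤ C p ^ (w + max (v, ⌈w / 2⌉))` for all lattices `M` with multiplier ring containing some
`p ^ k 𝓞_K`. If no level below `p ^ v` is reached and no level below `p ^ w` is filled then
`m(F) [𝓞_K M : M] ≥ c p ^ (w + v - 2)` for some invertible module `M` over each `ℤ + p ^ k 𝓞_K`, `k ≥ w`. The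
constants `C` and `c > 0` depend only on `K`. For cyclic `K` and `p ≡ 2 (mod 3)` the reached levels are the
filled ones, so for the first of them, `p ^ w`, the largest product is between `c p ^ (2 w - 2)` and
`C p ^ (2 w)`. -/

set_option autoImplicit false

namespace Pool.Agent.Results.MP_ca7d12_nt.LeopoldtRate

open NumberField Pool.Agent.MP_ca7d12_nt

theorem result (K : Type) [Field K] [NumberField K] (hK : Module.finrank ℚ K = 3)
    (σ : Fin 3 → K →+* ℝ) (hσ : Function.Injective σ) :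
    (∀ S : Finset ℕ, (∀ p ∈ S, p.Prime) → List.TFAE [
      ∀ p ∈ S, LeopoldtAt K p,
      ∃ V : Finset ℝ, (∀ v ∈ V, 0 < v) ∧ ∀ (α : Fin 3 → K) (n : ℕ), LinearIndependent ℚ α →
        IsSNumber S n → StableUnder K α n →
          markovMin (fun i j => σ i (α j)) * (latticeIndex K α : ℝ) ∈ V,
      ∃ B : ℝ, ∀ (α : Fin 3 → K) (n : ℕ), LinearIndependent ℚ α → IsSNumber S n →
        CyclicModulo K α n → markovMin (fun i j => σ i (α j)) * (latticeIndex K α : ℝ) ≤ B]) ∧
    (∀ S : Finset ℕ, (∀ p ∈ S, p.Prime) → (∀ p ∈ S, LeopoldtAt K p) → ∀ ε : ℝ, 0 < ε →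
      {m : ℝ | ∃ (α : Fin 3 → K) (n : ℕ), LinearIndependent ℚ α ∧ IsSNumber S n ∧
        StableUnder K α n ∧ m = markovMin (fun i j => σ i (α j)) ∧ ε ≤ m}.Finite) ∧
    (∀ p : ℕ, p.Prime → (LeopoldtAt K p ↔ ∃ w : ℕ, 2 ≤ w ∧ UnitsFill K (p ^ w) p)) ∧
    (∃ C : ℝ, ∀ p v w : ℕ, p.Prime → 3 ≤ p ^ v → v ≤ w → HasUnit K (p ^ v) p →
      UnitsFill K (p ^ w) p →
      ∀ (k : ℕ) (α : Fin 3 → K), LinearIndependent ℚ α → StableUnder K α (p ^ k) →
        markovMin (fun i j => σ i (α j)) * (latticeIndex K α : ℝ) ≤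
          C * (p : ℝ) ^ (w + max v ((w + 1) / 2))) ∧
    (∃ c : ℝ, 0 < c ∧ ∀ p v w : ℕ, p.Prime → 1 ≤ v → v ≤ w →
      (∀ j : ℕ, 1 ≤ j → j < v → ¬ HasUnit K (p ^ j) p) →
      (∀ j : ℕ, 1 ≤ j → j < w → ¬ UnitsFill K (p ^ j) p) →
      ∀ k : ℕ, w ≤ k → ∃ α : Fin 3 → K, LinearIndependent ℚ α ∧ CyclicModulo K α (p ^ k) ∧
        c * (p : ℝ) ^ (w + v - 2) ≤
          markovMin (fun i j => σ i (α j)) * (latticeIndex K α : ℝ)) ∧
    (IsGalois ℚ K → ∀ p w : ℕ, p.Prime → p % 3 = 2 → 1 ≤ w →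
      (HasUnit K (p ^ w) p ↔ UnitsFill K (p ^ w) p)) :=
  final_H K hK σ hσ

end Pool.Agent.Results.MP_ca7d12_nt.LeopoldtRate
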