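import Pool.Agent.Lib.MP_ca7d12_nt.V.FinalV

/-! # Products of three linear forms: explicit bounds for the lattices of any totally real cubic
field with level supported on a fixed finite set of primes

Let `K` be any cubic number field with three real embeddings `σ 0, σ 1, σ 2` and `S` any finite set
of primes. A lattice `M = ℤ α₀ + ℤ α₁ + ℤ α₂` of `K` gives the form
`F(x) = ∏ i, ∑ j, σ i (α j) * x j`. Let `n` be the level of `M`, the least positive integer such that
`n 𝓞_K M ⊆ M`, and suppose that all the prime factors of `n` are in `S`. Then, with a constant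
`C = C(K, S)`,
* `m(F) [𝓞_K M : M] ≤ C n ^ (3 / 2)`,
* `m(F) ^ 2 n ^ (3 / 2) ≤ C [𝓞_K M : M]`.
So for all `δ, ε > 0` only finitely many values `m(F) ≥ ε` are taken at the lattices whose index
`[𝓞_K M : M]` is at least `n ^ (3 / 2 + δ)` or at most `n ^ (3 / 2 - δ)`. The same holds for the
invertible modules over the orders `ℤ + n 𝓞_K`, where the index is `n ^ 2`. -/

set_option autoImplicit false

namespace Pool.Agent.Results.MP_ca7d12_nt.TotallyRealFieldBounds

open NumberField Pool.Agent.MP_ca7d12_nt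

theorem result (K : Type) [Field K] [NumberField K] (hK : Module.finrank ℚ K = 3)
    (σ : Fin 3 → K →+* ℝ) (hσ : Function.Injective σ) (S : Finset ℕ) (hS : ∀ p ∈ S, p.Prime) :
    (∃ C : ℝ, ∀ (α : Fin 3 → K) (n : ℕ), LinearIndependent ℚ α → IsSNumber S n →
      IsLevel K α n →
      markovMin (fun i j => σ i (α j)) * (latticeIndex K α : ℝ) ≤ C * (n : ℝ) ^ (3 / 2 : ℝ) ∧
      markovMin (fun i j => σ i (α j)) ^ 2 * (n : ℝ) ^ (3 / 2 : ℝ) ≤
        C * (latticeIndex K α : ℝ)) ∧
    ∀ δ ε : ℝ, 0 < δ → 0 < ε →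
      {m : ℝ | ∃ α : Fin 3 → K, LinearIndependent ℚ α ∧
        (∃ n : ℕ, IsSNumber S n ∧ (CyclicModulo K α n ∨ (IsLevel K α n ∧
          ((n : ℝ) ^ (3 / 2 + δ) ≤ (latticeIndex K α : ℝ) ∨
            (latticeIndex K α : ℝ) ≤ (n : ℝ) ^ (3 / 2 - δ))))) ∧
        m = markovMin (fun i j => σ i (α j)) ∧ ε ≤ m}.Finite :=
  final_general_V K hK σ hσ S hS

end Pool.Agent.Results.MP_ca7d12_nt.TotallyRealFieldBounds
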